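import Pool.Agent.N202.TB.Stm

/-!
# The derivations `dp` given by matrices (through the dual numbers)
-/

set_option linter.unusedSectionVars false

namespace Pool.Agent.N279.TB

open Matrix
open Pool.Agent.N996.BP Pool.Agent.N202.TB

section Prod

variable {R : Type} [CommRing R] {κ : Type} [DecidableEq κ]

lemma fst_prod (s : Finset κ) (f : κ → DualNumber R) :
    (∏ k ∈ s, f k).fst = ∏ k ∈ s, (f k).fst :=
  map_prod (TrivSqZeroExt.fstHom R R R) f s

lemma snd_prod (s : Finset κ) (f : κ → DualNumber R) :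
    (∏ k ∈ s, f k).snd = ∑ k ∈ s, (f k).snd * ∏ j ∈ s.erase k, (f j).fst := by
  induction s using Finset.induction_on with
  | empty => simp
  | insert a s ha ih =>
    rw [Finset.prod_insert ha, TrivSqZeroExt.snd_mul, ih, fst_prod, Finset.sum_insert ha,
      Finset.erase_insert ha]
    have h1 : ∀ k ∈ s, (f k).snd * ∏ j ∈ (insert a s).erase k, (f j).fst
        = (f a).fst * ((f k).snd * ∏ j ∈ s.erase k, (f j).fst) := by
      intro k hk
      have hka : k ≠ a := fun h => ha (h ▸ hk)
      rw [Finset.erase_insert_of_ne (Ne.symm hka), Finset.prod_insert]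
      · ring
      · simp [ha]
    rw [Finset.sum_congr rfl h1, ← Finset.mul_sum]
    simp only [smul_eq_mul, MulOpposite.smul_eq_mul_unop, MulOpposite.unop_op]
    ring

end Prod

section Mat

variable {R : Type} [CommRing R]

/-- The first part of a matrix of dual numbers. -/
def F {m n : Type} (A : Matrix m n (DualNumber R)) : Matrix m n R :=
  Matrix.of fun i j => (A i j).fst

/-- The second part of a matrix of dual numbers. -/
def S {m n : Type} (A : Matrix m n (DualNumber R)) : Matrix m n R :=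
  Matrix.of fun i j => (A i j).snd

lemma fst_sum' {m : Type} (s : Finset m) (f : m → DualNumber R) :
    (∑ k ∈ s, f k).fst = ∑ k ∈ s, (f k).fst := map_sum (TrivSqZeroExt.fstHom R R R) f s

lemma snd_sum' {m : Type} (s : Finset m) (f : m → DualNumber R) :
    (∑ k ∈ s, f k).snd = ∑ k ∈ s, (f k).snd := map_sum (TrivSqZeroExt.sndHom R R) f s

lemma F_mul {m n p : Type} [Fintype n] (A : Matrix m n (DualNumber R))
    (B : Matrix n p (DualNumber R)) : F (A * B) = F A * F B := by
  ext i j
  simp [F, Matrix.mul_apply, fst_sum']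

lemma S_mul {m n p : Type} [Fintype n] (A : Matrix m n (DualNumber R))
    (B : Matrix n p (DualNumber R)) : S (A * B) = F A * S B + S A * F B := by
  ext i j
  simp only [F, S, Matrix.mul_apply, snd_sum', Matrix.of_apply, Matrix.add_apply,
    TrivSqZeroExt.snd_mul, ← Finset.sum_add_distrib]
  refine Finset.sum_congr rfl fun k _ => ?_
  simp only [smul_eq_mul, MulOpposite.smul_eq_mul_unop, MulOpposite.unop_op]

lemma F_tr {m n : Type} (A : Matrix m n (DualNumber R)) : F Aᵀ = (F A)ᵀ := rfl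

lemma S_tr {m n : Type} (A : Matrix m n (DualNumber R)) : S Aᵀ = (S A)ᵀ := rfl

/-- The matrix with given parts. -/
def mk {m n : Type} (A B : Matrix m n R) : Matrix m n (DualNumber R) :=
  Matrix.of fun i j => TrivSqZeroExt.inl (A i j) + TrivSqZeroExt.inr (B i j)

@[simp] lemma F_mk {m n : Type} (A B : Matrix m n R) : F (mk A B) = A := by
  ext i j; simp [F, mk]

@[simp] lemma S_mk {m n : Type} (A B : Matrix m n R) : S (mk A B) = B := by
  ext i j; simp [S, mk]

lemma ext_FS {m n : Type} {A B : Matrix m n (DualNumber R)} (h : F A = F B) (h' : S A = S B) :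
    A = B := by
  ext i j
  · exact congrFun (congrFun h i) j
  · exact congrFun (congrFun h' i) j

variable {ι κ : Type} [Fintype ι] [DecidableEq ι] [Fintype κ] [DecidableEq κ]

lemma F_kp (A : Matrix ι ι (DualNumber R)) : F (kp κ A) = kp κ (F A) := by
  ext v w
  simp [F, kp_apply, fst_prod]

lemma S_kp_one (y : Matrix ι ι R) : S (kp κ (mk 1 y)) = dp κ y := by
  ext v w
  simp only [S, kp_apply, snd_prod, Matrix.of_apply, dp, mk, TrivSqZeroExt.snd_add,
    TrivSqZeroExt.snd_inl, TrivSqZeroExt.snd_inr, zero_add, TrivSqZeroExt.fst_add,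
    TrivSqZeroExt.fst_inl, TrivSqZeroExt.fst_inr, add_zero, Matrix.one_apply]

lemma F_kp_one (y : Matrix ι ι R) : F (kp κ (mk 1 y)) = 1 := by
  rw [F_kp, F_mk, kp_one]

end Mat

/-- The derivation is linear. -/
theorem dplin_ : S_DPLIN := by
  intro R _ ι _ _ κ _ _ c x y
  ext v w
  simp only [dp, Matrix.of_apply, Matrix.add_apply, Matrix.smul_apply, smul_eq_mul,
    Finset.mul_sum, ← Finset.sum_add_distrib]
  refine Finset.sum_congr rfl fun k _ => ?_
  ring

/-- The derivation on arrays given by matrices. -/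
theorem dparr_ : S_DPARR := by
  intro R _ ι _ _ κ l _ _ _ _ y M
  have h := kp_arr (κ := κ) (l := l) (mk 1 y) (mk M 0)
  ext i
  have h2 : ((kp (κ ⊕ l) (mk 1 y) *ᵥ arr (mk M 0)) i).snd = (dp (κ ⊕ l) y *ᵥ arr M) i := by
    rw [← S_kp_one]
    simp only [Matrix.mulVec, dotProduct, snd_sum', TrivSqZeroExt.snd_mul]
    refine Finset.sum_congr rfl fun w _ => ?_
    simp [arr, mk, S]
  have h3 : (arr (kp κ (mk 1 y) * mk M 0 * (kp l (mk 1 y))ᵀ) i).snd
      = arr (dp κ y * M + M * (dp l y)ᵀ) i := by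
    change S (kp κ (mk 1 y) * mk M 0 * (kp l (mk 1 y))ᵀ) (i ∘ Sum.inl) (i ∘ Sum.inr) = _
    rw [S_mul, S_mul, F_mul, F_tr, S_tr, S_kp_one, S_kp_one, F_kp_one, F_kp_one, S_mk, F_mk]
    simp [arr, add_comm]
  rw [← h2, h, h3]

/-- The derivation on reindexed arrays. -/
theorem dprei_ : S_DPREI := by
  intro R _ ι _ _ κ l _ _ _ _ e y a
  have h := kp_rei (κ := κ) (l := l) e (mk 1 y) (fun w => TrivSqZeroExt.inl (a w))
  ext i
  have key : ∀ (κ' : Type) [Fintype κ'] [DecidableEq κ'] (b : (κ' → ι) → R) (i : κ' → ι),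
      ((kp κ' (mk 1 y) *ᵥ (fun w => (TrivSqZeroExt.inl (b w) : DualNumber R))) i).snd
        = (dp κ' y *ᵥ b) i := by
    intro κ' _ _ b i
    rw [← S_kp_one]
    simp only [Matrix.mulVec, dotProduct, snd_sum', TrivSqZeroExt.snd_mul]
    refine Finset.sum_congr rfl fun w _ => ?_
    simp [S]
  have h2 := congrArg TrivSqZeroExt.snd (congrFun h i)
  have h3 := key l (rei e a) i
  have h4 := key κ a (i ∘ e)
  rw [← h3]
  change _ = (dp κ y *ᵥ a) (i ∘ e)
  rw [← h4]
  exact h2

/-- Skew matrices. -/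
theorem dpskew_ : S_DPSKEW := by
  intro R _ ι _ _ κ _ _ y B hB
  -- `(1 + ε y) B (1 + ε y)ᵀ = B`
  have h1 : (mk 1 y) * (mk B 0) * (mk 1 y)ᵀ = (mk B 0 : Matrix ι ι (DualNumber R)) := by
    refine ext_FS ?_ ?_
    · rw [F_mul, F_mul, F_tr, F_mk, F_mk]; simp
    · rw [S_mul, S_mul, F_mul, F_tr, S_tr]
      simp only [F_mk, S_mk, Matrix.transpose_one, mul_one, one_mul, mul_zero, zero_add]
      rw [add_comm]; exact hB
  have h2 : kp κ (mk 1 y) * kp κ (mk B 0) * (kp κ (mk 1 y))ᵀ
      = kp κ (mk B 0 : Matrix ι ι (DualNumber R)) := by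
    rw [← kp_transpose, ← kp_mul, ← kp_mul, h1]
  have h3 := congrArg S h2
  rw [S_mul, S_mul, F_mul, F_tr, S_tr, S_kp_one, F_kp_one, F_kp, F_mk] at h3
  simp only [Matrix.transpose_one, mul_one, one_mul] at h3
  -- `h3 : kp κ B * (dp κ y)ᵀ + (S (kp κ (mk B 0)) + dp κ y * kp κ B) = S (kp κ (mk B 0))`
  have h4 : dp κ y * kp κ B + kp κ B * (dp κ y)ᵀ
      = (kp κ B * (dp κ y)ᵀ + (S (kp κ (mk B 0)) + dp κ y * kp κ B)) - S (kp κ (mk B 0)) := by
    abel
  rw [h4, h3, sub_self]

/-- The derivation given by a diagonal matrix. -/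
theorem dpdiag_ : S_DPDIAG := by
  intro R _ ι _ _ κ _ _ d a
  ext v
  rw [Matrix.mulVec, dotProduct, Finset.sum_eq_single v]
  · simp [dp]
  · intro w _ hw
    obtain ⟨k, hk⟩ := Function.ne_iff.1 hw
    have : dp κ (Matrix.diagonal d) v w = 0 := by
      simp only [dp, Matrix.of_apply]
      refine Finset.sum_eq_zero fun j _ => ?_
      by_cases hjk : j = k
      · subst hjk
        rw [Matrix.diagonal_apply_ne _ (Ne.symm hk), zero_mul]
      · rw [Finset.prod_eq_zero (i := k) (by simp [Ne.symm hjk]) (by simp [Ne.symm hk]), mul_zero]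
    rw [this, zero_mul]
  · intro h; exact absurd (Finset.mem_univ v) h

/-- The derivation on arrays with two indices. -/
theorem dptwo_ : S_DPTWO := by
  intro R _ ι _ _ y A
  ext v
  have hd : ∀ w : Fin 2 → ι, dp (Fin 2) y v w
      = y (v 0) (w 0) * (if v 1 = w 1 then 1 else 0) + y (v 1) (w 1) * (if v 0 = w 0 then 1 else 0) := by
    intro w
    simp only [dp, Matrix.of_apply, Fin.sum_univ_two]
    have e0 : (Finset.univ : Finset (Fin 2)).erase 0 = {1} := by decide
    have e1 : (Finset.univ : Finset (Fin 2)).erase 1 = {0} := by decide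
    rw [e0, e1, Finset.prod_singleton, Finset.prod_singleton]
  rw [Matrix.mulVec, dotProduct]
  simp only [hd]
  rw [← Equiv.sum_comp (finTwoArrowEquiv ι).symm, Fintype.sum_prod_type]
  simp only [finTwoArrowEquiv_symm_apply, Matrix.cons_val_zero, Matrix.cons_val_one,
    Matrix.cons_val_fin_one, add_mul, Finset.sum_add_distrib, Matrix.add_apply, Matrix.mul_apply,
    Matrix.transpose_apply]
  congr 1
  · refine Finset.sum_congr rfl fun x _ => ?_
    simp
  · rw [Finset.sum_comm]
    refine Finset.sum_congr rfl fun x _ => ?_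
    simp [mul_comm]

end Pool.Agent.N279.TB
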